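import Pool.Agent.Y957.VK.Stm2

set_option autoImplicit false

/-!
# Project VK, second part: induction over the factors
-/

namespace Pool.Agent.Y65.VK

open Finset MeasureTheory Filter Topology
open scoped ENNReal
open Pool.Agent.H376R2.MR (er)
open Pool.Agent.Y957.AD (PolyVar)
open Pool.Agent.Y957.VK

lemma base (g : ℕ → ℂ) (hN : Neg g) (A : Fin 0 → ℝ → ℂ) (b c : Fin 0 → ℝ) :
    NegF (Measure.pi fun _ : Fin 0 => (volume : Measure ℝ).restrict (Set.Icc (0 : ℝ) 1))
      (fun ω n => g n * ∏ i, A i (Real.exp (b i + ω i) * (n : ℝ) ^ (c i))) := by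
  intro P K
  obtain ⟨C, hC⟩ := hN P K
  have hl2 : 0 < Real.log 2 := Real.log_pos (by norm_num)
  refine ⟨C ^ 2 / Real.log 2 ^ K, by positivity, fun N τ hN hτ => ?_⟩
  have h1 := hC N τ hN hτ
  have hlN : Real.log 2 ≤ Real.log N := Real.log_le_log (by norm_num) (by exact_mod_cast hN)
  have hlN0 : 0 < Real.log N := lt_of_lt_of_le hl2 hlN
  simp only [Finset.univ_eq_empty, Finset.prod_empty, mul_one]
  rw [lintegral_const, Measure.pi_of_empty _ (fun i => i.elim0), measure_univ, mul_one]
  rw [← ofReal_norm_eq_enorm, ← ENNReal.ofReal_pow (norm_nonneg _)]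
  apply ENNReal.ofReal_le_ofReal
  have h2 := pow_le_pow_left₀ (norm_nonneg _) h1 2
  refine h2.trans ?_
  have h3 : Real.log 2 ^ K ≤ Real.log N ^ K := pow_le_pow_left₀ hl2.le hlN K
  have h4 : 0 < Real.log 2 ^ K := by positivity
  have h5 : 0 < Real.log N ^ K := by positivity
  have e1 : (C * N / Real.log N ^ K) ^ 2 = C ^ 2 * N ^ 2 / Real.log N ^ K / Real.log N ^ K := by
    field_simp
  have e2 : C ^ 2 / Real.log 2 ^ K * N ^ 2 / Real.log N ^ K =
      C ^ 2 * N ^ 2 / Real.log N ^ K / Real.log 2 ^ K := by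
    field_simp
  rw [e1, e2]
  exact div_le_div_of_nonneg_left (by positivity) h4 h3

theorem pi_all (h : S_STEP) : S_PI := by
  intro g hg hN k
  induction k with
  | zero =>
    intro A _ _ _ b c _
    exact base g hN A b c
  | succ k ih =>
    intro A hA1 hA2 hA3 b c hc
    have h1 := ih (fun j => A j.succ) (fun j => hA1 _) (fun j => hA2 _) (fun j => hA3 _)
      (fun j => b j.succ) (fun j => c j.succ) (fun j => hc _)
    have h2 := h (Fin k → ℝ)
      (Measure.pi fun _ : Fin k => (volume : Measure ℝ).restrict (Set.Icc (0 : ℝ) 1))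
      (fun ω n => g n * ∏ j : Fin k, A j.succ (Real.exp (b j.succ + ω j) * (n : ℝ) ^ (c j.succ)))
      (fun n => by
        apply Measurable.const_mul
        apply Finset.measurable_prod
        intro j _
        exact (hA2 j.succ).comp (((measurable_pi_apply j).const_add _).exp.mul_const _))
      (fun ω n => by
        rw [norm_mul, norm_prod]
        have h3 : ∏ j : Fin k, ‖A j.succ (Real.exp (b j.succ + ω j) * (n : ℝ) ^ (c j.succ))‖ ≤ 1 :=
          Finset.prod_le_one (fun _ _ => norm_nonneg _) (fun j _ => hA1 _ _)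
        exact mul_le_one₀ (hg n) (Finset.prod_nonneg fun _ _ => norm_nonneg _) h3)
      h1 (A 0) (hA1 0) (hA2 0) (hA3 0) (b 0) (c 0) (hc 0)
    intro P K
    obtain ⟨C, hC0, hC⟩ := h2 P K
    refine ⟨C, hC0, fun N τ hN2 hτ => ?_⟩
    refine le_trans (le_of_eq ?_) (hC N τ hN2 hτ)
    have mp1 := measurePreserving_piFinSuccAbove
      (fun _ : Fin (k + 1) => (volume : Measure ℝ).restrict (Set.Icc (0 : ℝ) 1)) 0
    have mp2 : MeasurePreserving (Prod.swap : ℝ × (Fin k → ℝ) → (Fin k → ℝ) × ℝ)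
        (((volume : Measure ℝ).restrict (Set.Icc (0 : ℝ) 1)).prod
          (Measure.pi fun _ : Fin k => (volume : Measure ℝ).restrict (Set.Icc (0 : ℝ) 1)))
        ((Measure.pi fun _ : Fin k => (volume : Measure ℝ).restrict (Set.Icc (0 : ℝ) 1)).prod
          ((volume : Measure ℝ).restrict (Set.Icc (0 : ℝ) 1))) := Measure.measurePreserving_swap
    rw [← mp2.lintegral_comp_emb MeasurableEquiv.prodComm.measurableEmbedding,
      ← mp1.lintegral_comp_emb (MeasurableEquiv.measurableEmbedding _)]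
    apply lintegral_congr
    intro ω
    congr 2
    apply Finset.sum_congr rfl
    intro n _
    have e0 : ∏ i, A i (Real.exp (b i + ω i) * (n : ℝ) ^ c i) =
        A 0 (Real.exp (b 0 + ω 0) * (n : ℝ) ^ c 0) *
          ∏ j : Fin k, A j.succ (Real.exp (b j.succ + ω j.succ) * (n : ℝ) ^ c j.succ) :=
      Fin.prod_univ_succ _
    have e1 : ((MeasurableEquiv.piFinSuccAbove (fun _ : Fin (k + 1) => ℝ) 0) ω).2 =
      fun j => ω j.succ := by
      funext j
      rfl
    have e2 : ((MeasurableEquiv.piFinSuccAbove (fun _ : Fin (k + 1) => ℝ) 0) ω).1 = ω 0 := rfl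
    simp only [Prod.fst_swap, Prod.snd_swap, e1, e2, e0]
    ring

theorem all_of (h1 : S_BC) (h2 : S_PI) : S_ALL := by
  intro g hg hN k A hA1 hA2 hA3 c hc
  obtain ⟨P, hP⟩ : ∃ P : (Fin k → ℝ) → Prop, P = fun α => ∀ K : ℕ,
      Tendsto (fun N : ℕ => (Real.log N) ^ K / N *
        ‖∑ n ∈ Finset.Icc 1 N, g n * ∏ i, A i (α i * (n : ℝ) ^ (c i))‖) atTop (𝓝 0) := ⟨_, rfl⟩
  have hmeas : MeasurableSet {α : Fin k → ℝ | ∀ i, 0 < α i} := by
    have e : {α : Fin k → ℝ | ∀ i, 0 < α i} = Set.pi Set.univ (fun _ => Set.Ioi (0 : ℝ)) := by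
      ext α
      simp
    rw [e]
    exact MeasurableSet.univ_pi fun _ => measurableSet_Ioi
  suffices hs : ∀ᵐ α ∂((volume : Measure (Fin k → ℝ)).restrict {α | ∀ i, 0 < α i}), P α by
    rw [hP] at hs
    exact hs
  rw [ae_restrict_iff' hmeas]
  have hcube : MeasurableSet (Set.pi Set.univ (fun _ : Fin k => Set.Icc (0 : ℝ) 1)) :=
    MeasurableSet.univ_pi fun _ => measurableSet_Icc
  have key : ∀ b : Fin k → ℤ, (volume : Measure (Fin k → ℝ))
      {ω | ω ∈ Set.pi Set.univ (fun _ : Fin k => Set.Icc (0 : ℝ) 1) ∧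
        ¬ P (fun i => Real.exp (b i + ω i))} = 0 := by
    intro b
    have h3 := h1 (Fin k → ℝ)
      (Measure.pi fun _ : Fin k => (volume : Measure ℝ).restrict (Set.Icc (0 : ℝ) 1))
      (fun ω n => g n * ∏ i, A i (Real.exp (b i + ω i) * (n : ℝ) ^ (c i)))
      (fun n => by
        apply Measurable.const_mul
        apply Finset.measurable_prod
        intro j _
        exact (hA2 j).comp (((measurable_pi_apply j).const_add _).exp.mul_const _))
      (fun ω n => by
        rw [norm_mul, norm_prod]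
        have h3 : ∏ j : Fin k, ‖A j (Real.exp (b j + ω j) * (n : ℝ) ^ (c j))‖ ≤ 1 :=
          Finset.prod_le_one (fun _ _ => norm_nonneg _) (fun j _ => hA1 _ _)
        exact mul_le_one₀ (hg n) (Finset.prod_nonneg fun _ _ => norm_nonneg _) h3)
      (h2 g hg hN k A hA1 hA2 hA3 (fun i => (b i : ℝ)) c hc)
    rw [← Measure.restrict_pi_pi, ← volume_pi, ae_restrict_iff' hcube] at h3
    rw [ae_iff] at h3
    refine measure_mono_null ?_ h3
    intro ω hω
    simp only [Set.mem_setOf_eq, Classical.not_imp]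
    refine ⟨hω.1, ?_⟩
    have := hω.2
    rw [hP] at this
    exact this
  rw [ae_iff]
  refine measure_mono_null ?_ (measure_iUnion_null fun b : Fin k → ℤ =>
    addHaar_image_eq_zero_of_differentiableOn_of_addHaar_eq_zero (volume : Measure (Fin k → ℝ))
      (f := fun ω i => Real.exp (b i + ω i)) ?_ (key b))
  · intro α hα
    simp only [Set.mem_setOf_eq, Classical.not_imp] at hα
    obtain ⟨hα1, hα2⟩ := hα
    rw [Set.mem_iUnion]
    have e : (fun i => Real.exp (((⌊Real.log (α i)⌋ : ℤ) : ℝ) + Int.fract (Real.log (α i)))) = α := by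
      funext i
      rw [Int.floor_add_fract, Real.exp_log (hα1 i)]
    refine ⟨fun i => ⌊Real.log (α i)⌋, fun i => Int.fract (Real.log (α i)), ⟨?_, ?_⟩, e⟩
    · intro i _
      exact ⟨Int.fract_nonneg _, (Int.fract_lt_one _).le⟩
    · rw [e]
      exact hα2
  · apply Differentiable.differentiableOn
    rw [differentiable_pi]
    intro i
    exact ((differentiable_apply i).const_add _).exp

end Pool.Agent.Y65.VK
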